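import Pool.Agent.W205.K5.Stm0

set_option autoImplicit false

namespace Pool.Agent.W135.K5

open Pool.Agent.W205.K5

theorem loc (ρ : ℝ) (h0 : 0 < ρ) (hρ : ρ ^ 5 + (1 - ρ / 5) ^ 5 = 1) :
    913235 / 1000000 < ρ ∧ ρ < 913236 / 1000000 := by
  have h : 3124 / 3125 * ρ ^ 4 + 1 / 125 * ρ ^ 3 - 2 / 25 * ρ ^ 2 + 2 / 5 * ρ - 1 = 0 := by
    have h1 : ρ * (3124 / 3125 * ρ ^ 4 + 1 / 125 * ρ ^ 3 - 2 / 25 * ρ ^ 2 + 2 / 5 * ρ - 1) = 0 := by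
      linear_combination hρ
    rcases mul_eq_zero.1 h1 with h2 | h2
    · exact absurd h2 h0.ne'
    · exact h2
  constructor
  · by_contra hcon
    push Not at hcon
    have h3 : 0 ≤ (913235 / 1000000 - ρ) * (3124 / 3125 * ((913235 / 1000000) ^ 3 +
        (913235 / 1000000) ^ 2 * ρ + (913235 / 1000000) * ρ ^ 2 + ρ ^ 3) + 1 / 125 *
        ((913235 / 1000000) ^ 2 + (913235 / 1000000) * ρ + ρ ^ 2) +
        (2 / 5 - 2 / 25 * (913235 / 1000000 + ρ))) := by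
      apply mul_nonneg (by linarith)
      have : 0 ≤ 2 / 5 - 2 / 25 * (913235 / 1000000 + ρ) := by linarith
      positivity
    have h4 : (3124 / 3125 * (913235 / 1000000 : ℝ) ^ 4 + 1 / 125 * (913235 / 1000000) ^ 3 -
        2 / 25 * (913235 / 1000000) ^ 2 + 2 / 5 * (913235 / 1000000) - 1) < 0 := by norm_num
    have h5 : (913235 / 1000000 - ρ) * (3124 / 3125 * ((913235 / 1000000) ^ 3 +
        (913235 / 1000000) ^ 2 * ρ + (913235 / 1000000) * ρ ^ 2 + ρ ^ 3) + 1 / 125 *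
        ((913235 / 1000000) ^ 2 + (913235 / 1000000) * ρ + ρ ^ 2) +
        (2 / 5 - 2 / 25 * (913235 / 1000000 + ρ))) =
        (3124 / 3125 * (913235 / 1000000 : ℝ) ^ 4 + 1 / 125 * (913235 / 1000000) ^ 3 -
        2 / 25 * (913235 / 1000000) ^ 2 + 2 / 5 * (913235 / 1000000) - 1) -
        (3124 / 3125 * ρ ^ 4 + 1 / 125 * ρ ^ 3 - 2 / 25 * ρ ^ 2 + 2 / 5 * ρ - 1) := by ring
    rw [h, sub_zero] at h5
    linarith
  · by_contra hcon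
    push Not at hcon
    have hρ1 : ρ ≤ 5 / 2 := by
      by_contra hc
      push Not at hc
      nlinarith [pow_pos h0 3, pow_pos h0 2, mul_pos h0 h0, mul_pos (mul_pos h0 h0) (mul_pos h0 h0)]
    have h3 : 0 ≤ (ρ - 913236 / 1000000) * (3124 / 3125 * ((913236 / 1000000) ^ 3 +
        (913236 / 1000000) ^ 2 * ρ + (913236 / 1000000) * ρ ^ 2 + ρ ^ 3) + 1 / 125 *
        ((913236 / 1000000) ^ 2 + (913236 / 1000000) * ρ + ρ ^ 2) +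
        (2 / 5 - 2 / 25 * (913236 / 1000000 + ρ))) := by
      apply mul_nonneg (by linarith)
      have : 0 ≤ 2 / 5 - 2 / 25 * (913236 / 1000000 + ρ) := by linarith
      positivity
    have h4 : 0 < (3124 / 3125 * (913236 / 1000000 : ℝ) ^ 4 + 1 / 125 * (913236 / 1000000) ^ 3 -
        2 / 25 * (913236 / 1000000) ^ 2 + 2 / 5 * (913236 / 1000000) - 1) := by norm_num
    have h5 : (ρ - 913236 / 1000000) * (3124 / 3125 * ((913236 / 1000000) ^ 3 +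
        (913236 / 1000000) ^ 2 * ρ + (913236 / 1000000) * ρ ^ 2 + ρ ^ 3) + 1 / 125 *
        ((913236 / 1000000) ^ 2 + (913236 / 1000000) * ρ + ρ ^ 2) +
        (2 / 5 - 2 / 25 * (913236 / 1000000 + ρ))) =
        (3124 / 3125 * ρ ^ 4 + 1 / 125 * ρ ^ 3 - 2 / 25 * ρ ^ 2 + 2 / 5 * ρ - 1) -
        (3124 / 3125 * (913236 / 1000000 : ℝ) ^ 4 + 1 / 125 * (913236 / 1000000) ^ 3 -
        2 / 25 * (913236 / 1000000) ^ 2 + 2 / 5 * (913236 / 1000000) - 1) := by ring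
    rw [h] at h5
    linarith

theorem F4 (ρ : ℝ) (h1 : 913235 / 1000000 < ρ) (h2 : ρ < 913236 / 1000000) :
    0 ≤ ρ ^ 5 * (81 / 256) - 5 * ρ ^ 4 * (1 - ρ) * (37 / 64) - 10 * ρ ^ 3 * (1 - ρ) ^ 2 * (7 / 16)
      - 10 * ρ ^ 2 * (1 - ρ) ^ 3 * (1 / 4) := by
  obtain ⟨x, hx⟩ : ∃ x, x = 1 - ρ := ⟨_, rfl⟩
  have hx1 : x < 86765 / 1000000 := by linarith
  have hx0 : 0 < x := by linarith
  have hρ0 : 0 < ρ := by linarith
  have a1 : (913235 / 1000000 : ℝ) ^ 3 ≤ ρ ^ 3 := pow_le_pow_left₀ (by norm_num) h1.le 3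
  have a2 : ρ ^ 2 * x ≤ (913236 / 1000000 : ℝ) ^ 2 * (86765 / 1000000) :=
    mul_le_mul (pow_le_pow_left₀ hρ0.le h2.le 2) hx1.le hx0.le (by positivity)
  have a3 : ρ * x ^ 2 ≤ (913236 / 1000000 : ℝ) * (86765 / 1000000) ^ 2 :=
    mul_le_mul h2.le (pow_le_pow_left₀ hx0.le hx1.le 2) (by positivity) (by positivity)
  have a4 : x ^ 3 ≤ (86765 / 1000000 : ℝ) ^ 3 := pow_le_pow_left₀ hx0.le hx1.le 3
  have key : 0 ≤ 81 / 256 * ρ ^ 3 - 185 / 64 * (ρ ^ 2 * x) - 35 / 8 * (ρ * x ^ 2) - 5 / 2 * x ^ 3 := by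
    have n : (0 : ℝ) ≤ 81 / 256 * (913235 / 1000000 : ℝ) ^ 3 -
      185 / 64 * ((913236 / 1000000 : ℝ) ^ 2 * (86765 / 1000000)) -
      35 / 8 * ((913236 / 1000000 : ℝ) * (86765 / 1000000) ^ 2) -
      5 / 2 * (86765 / 1000000 : ℝ) ^ 3 := by norm_num
    linarith
  have e : ρ ^ 5 * (81 / 256) - 5 * ρ ^ 4 * (1 - ρ) * (37 / 64) - 10 * ρ ^ 3 * (1 - ρ) ^ 2 * (7 / 16)
      - 10 * ρ ^ 2 * (1 - ρ) ^ 3 * (1 / 4) = ρ ^ 2 *
      (81 / 256 * ρ ^ 3 - 185 / 64 * (ρ ^ 2 * x) - 35 / 8 * (ρ * x ^ 2) - 5 / 2 * x ^ 3) := by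
    rw [hx]; ring
  rw [e]
  exact mul_nonneg (by positivity) key

theorem piece54 (hL : S_LINE) (hC : S_CHORD) : PIECE 5 4 := by
  intro w g hs hg1 hg2 ρ h0 h1 hρ
  have hρ' : ρ ^ 5 + (1 - ρ / 5) ^ 5 = 1 := by exact_mod_cast hρ
  obtain ⟨l1, l2⟩ := loc ρ h0 hρ'
  have hF4 := F4 ρ l1 l2
  have hK4 : KK 4 = 81 / 64 := by norm_num [KK]
  have hK5 : KK (4 + 1) = 1024 / 625 := by norm_num [KK]
  have hch := hC 5 w g le_rfl hs 4 (by norm_num) (by norm_num) hg1 hg2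
  rw [hK4, hK5] at hch
  rw [hK4] at hg1
  rw [hK5] at hg2
  have hch' : 81 / 256 * (1024 / 625 - g 0) + 1024 / 3125 * (g 0 - 81 / 64) ≤
      w 0 * (1024 / 625 - 81 / 64) := by
    refine le_trans (le_of_eq ?_) hch
    norm_num
  have L3 : (12 : ℝ) / 5 ≤ w 3 + 11 / 20 * g 3 := by
    apply hL 5 w g hs 3 (11 / 20) (12 / 5) (by norm_num) (by norm_num) (by norm_num) (by norm_num)
    intro n hn1 hn2
    interval_cases n <;> norm_num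
  have L2 : (144 : ℝ) / 155 ≤ w 2 + 101 / 620 * g 2 := by
    apply hL 5 w g hs 2 (101 / 620) (144 / 155) (by norm_num) (by norm_num) (by norm_num) (by norm_num)
    intro n hn1 hn2
    interval_cases n <;> norm_num
  have L1 : (1728 : ℝ) / 3605 ≤ w 1 + 491 / 14420 * g 1 := by
    apply hL 5 w g hs 1 (491 / 14420) (1728 / 3605) (by norm_num) (by norm_num) (by norm_num)
      (by norm_num)
    intro n hn1 hn2
    interval_cases n <;> norm_num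
  have A4 : g 4 ≤ g 3 + w 4 := hs.add 3 (by norm_num)
  have A3 : g 3 ≤ g 2 + w 3 := hs.add 2 (by norm_num)
  have A2 : g 2 ≤ g 1 + w 2 := hs.add 1 (by norm_num)
  have A1 : g 1 ≤ g 0 + w 1 := hs.add 0 (by norm_num)
  have J4 : (4 : ℝ) ≤ g 4 := by exact_mod_cast hs.jen 4 (by norm_num)
  have W5 : w 5 = 1 := hs.wk
  have hTh : Th 5 ρ (fun j => w (5 - j)) = ρ ^ 5 * w 0 + 5 * ρ ^ 4 * (1 - ρ) * w 1 +
      10 * ρ ^ 3 * (1 - ρ) ^ 2 * w 2 + 10 * ρ ^ 2 * (1 - ρ) ^ 3 * w 3 +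
      5 * ρ * (1 - ρ) ^ 4 * w 4 + (1 - ρ) ^ 5 := by
    simp only [Th, Finset.sum_range_succ, Finset.sum_range_zero]
    norm_num [Nat.choose, W5]
    ring
  rw [hTh]
  -- coefficients
  have x0 : 0 < 1 - ρ := by linarith
  obtain ⟨c0, hc0⟩ : ∃ c, c = ρ ^ 5 := ⟨_, rfl⟩
  obtain ⟨c1, hc1⟩ : ∃ c, c = 5 * ρ ^ 4 * (1 - ρ) := ⟨_, rfl⟩
  obtain ⟨c2, hc2⟩ : ∃ c, c = 10 * ρ ^ 3 * (1 - ρ) ^ 2 := ⟨_, rfl⟩
  obtain ⟨c3, hc3⟩ : ∃ c, c = 10 * ρ ^ 2 * (1 - ρ) ^ 3 := ⟨_, rfl⟩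
  obtain ⟨c4, hc4⟩ : ∃ c, c = 5 * ρ * (1 - ρ) ^ 4 := ⟨_, rfl⟩
  obtain ⟨c5, hc5⟩ : ∃ c, c = (1 - ρ) ^ 5 := ⟨_, rfl⟩
  have p0 : 0 ≤ c0 := by rw [hc0]; positivity
  have p4 : 0 ≤ c4 := by rw [hc4]; positivity
  have p34 : 0 ≤ c3 - c4 := by
    have : c3 - c4 = 5 * ρ * (1 - ρ) ^ 3 * (3 * ρ - 1) := by rw [hc3, hc4]; ring
    rw [this]
    exact mul_nonneg (by positivity) (by linarith)
  have p23 : 0 ≤ c2 - c3 := by
    have : c2 - c3 = 10 * ρ ^ 2 * (1 - ρ) ^ 2 * (2 * ρ - 1) := by rw [hc2, hc3]; ring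
    rw [this]
    exact mul_nonneg (by positivity) (by linarith)
  have p12 : 0 ≤ c1 - c2 := by
    have : c1 - c2 = 5 * ρ ^ 3 * (1 - ρ) * (3 * ρ - 2) := by rw [hc1, hc2]; ring
    rw [this]
    exact mul_nonneg (by positivity) (by linarith)
  have s1 : c0 + c1 + c2 + c3 + c4 + c5 = 1 := by
    rw [hc0, hc1, hc2, hc3, hc4, hc5]; ring
  have s2 : c0 * (1024 / 3125) + c1 * (256 / 625) + c2 * (64 / 125) + c3 * (16 / 25) + c4 * (4 / 5)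
      + c5 = 1 - c0 := by
    rw [hc0, hc1, hc2, hc3, hc4, hc5]
    linear_combination hρ'
  rw [← hc0, ← hc1, ← hc2, ← hc3] at hF4
  rw [← hc0, ← hc1, ← hc2, ← hc3, ← hc4, ← hc5]
  clear hc0 hc1 hc2 hc3 hc4 hc5 hTh
  obtain ⟨S3, hS3⟩ : ∃ s, s = c4 + (c3 - c4) * (11 / 31) := ⟨_, rfl⟩
  obtain ⟨S2, hS2⟩ : ∃ s, s = S3 + (c2 - S3) * (101 / 721) := ⟨_, rfl⟩
  have q3 : 0 ≤ S3 := by rw [hS3]; linarith
  have q23 : 0 ≤ c2 - S3 := by rw [hS3]; linarith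
  have q2 : 0 ≤ S2 := by rw [hS2]; linarith
  have q12 : 0 ≤ c1 - S2 := by rw [hS2]; linarith
  have t1 : 0 ≤ c4 * (w 4 + g 3 - 4) := mul_nonneg p4 (by linarith)
  have t2 : 0 ≤ c4 * (g 2 + w 3 - g 3) := mul_nonneg p4 (by linarith)
  have t3 : 0 ≤ (c3 - c4) * (31 / 20 * w 3 + 11 / 20 * g 2 - 12 / 5) := mul_nonneg p34 (by linarith)
  have t4 : 0 ≤ S3 * (g 1 + w 2 - g 2) := mul_nonneg q3 (by linarith)
  have t5 : 0 ≤ (c2 - S3) * (721 / 620 * w 2 + 101 / 620 * g 1 - 144 / 155) :=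
    mul_nonneg q23 (by linarith)
  have t6 : 0 ≤ S2 * (g 0 + w 1 - g 1) := mul_nonneg q2 (by linarith)
  have t7 : 0 ≤ (c1 - S2) * (14911 / 14420 * w 1 + 491 / 14420 * g 0 - 1728 / 3605) :=
    mul_nonneg q12 (by linarith)
  have t8 : 0 ≤ c0 * (w 0 * (1024 / 625 - 81 / 64) - (81 / 256 * (1024 / 625 - g 0) +
      1024 / 3125 * (g 0 - 81 / 64))) := mul_nonneg p0 (by linarith)
  have t9 : 0 ≤ (1024 / 625 - g 0) * (c0 * (81 / 256) - c1 * (37 / 64) - c2 * (7 / 16)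
      - c3 * (1 / 4)) := mul_nonneg (by linarith) hF4
  have D0 : (0 : ℝ) < 1024 / 625 - 81 / 64 := by norm_num
  have fin : (1024 / 625 - 81 / 64) * ((c0 * w 0 + c1 * w 1 + c2 * w 2 + c3 * w 3 + c4 * w 4 + c5)
      - (1 - c0)) = (1024 / 625 - 81 / 64) * (c4 * (w 4 + g 3 - 4) + c4 * (g 2 + w 3 - g 3) +
      (20 / 31) * ((c3 - c4) * (31 / 20 * w 3 + 11 / 20 * g 2 - 12 / 5)) +
      S3 * (g 1 + w 2 - g 2) +
      (620 / 721) * ((c2 - S3) * (721 / 620 * w 2 + 101 / 620 * g 1 - 144 / 155)) +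
      S2 * (g 0 + w 1 - g 1) +
      (14420 / 14911) * ((c1 - S2) * (14911 / 14420 * w 1 + 491 / 14420 * g 0 - 1728 / 3605))) +
      c0 * (w 0 * (1024 / 625 - 81 / 64) - (81 / 256 * (1024 / 625 - g 0) +
      1024 / 3125 * (g 0 - 81 / 64))) +
      (1024 / 625 - g 0) * (c0 * (81 / 256) - c1 * (37 / 64) - c2 * (7 / 16) - c3 * (1 / 4)) := by
    have e5 : c5 = 1 - c0 - c1 - c2 - c3 - c4 := by linarith
    rw [e5] at s2
    rw [e5, hS2, hS3]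
    linear_combination (g 0 - 81 / 64) * s2
  have fin2 : 0 ≤ (1024 / 625 - 81 / 64) * ((c0 * w 0 + c1 * w 1 + c2 * w 2 + c3 * w 3 + c4 * w 4
      + c5) - (1 - c0)) := by
    rw [fin]
    have := mul_nonneg D0.le (by linarith : 0 ≤ c4 * (w 4 + g 3 - 4) + c4 * (g 2 + w 3 - g 3) +
      (20 / 31) * ((c3 - c4) * (31 / 20 * w 3 + 11 / 20 * g 2 - 12 / 5)) +
      S3 * (g 1 + w 2 - g 2) +
      (620 / 721) * ((c2 - S3) * (721 / 620 * w 2 + 101 / 620 * g 1 - 144 / 155)) +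
      S2 * (g 0 + w 1 - g 1) +
      (14420 / 14911) * ((c1 - S2) * (14911 / 14420 * w 1 + 491 / 14420 * g 0 - 1728 / 3605)))
    linarith
  have fin3 := nonneg_of_mul_nonneg_right fin2 D0
  linarith

end Pool.Agent.W135.K5
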